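import Pool.Agent.H87.QP.Targets2
import Pool.Agent.H28.NW.LEVB

/-!
Row DPS of board qp_modules: dilation of filters.
-/

set_option autoImplicit false

namespace Pool.Agent.H12.QP

open Finset Pool.Agent.H18.MR Pool.Agent.H93.DE Pool.Agent.H6.N4D Pool.Agent.H93
  Pool.Agent.H93.ES Pool.Agent.H28.NW Pool.Agent.H87.QP

lemma sum_mult (q n T : ℕ) (hq : 1 ≤ q) (F : ℕ → ℝ) :
    ∑ m ∈ Ioc n (n + T), (if q ∣ m then (q : ℝ) else 0) * F m =
      q * ∑ m ∈ Ioc (n / q) ((n + T) / q), F (q * m) := by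
  have h1 : ∀ m, (if q ∣ m then (q : ℝ) else 0) * F m = if q ∣ m then (q : ℝ) * F m else 0 := by
    intro m
    split_ifs <;> simp
  rw [sum_congr rfl fun m _ => h1 m, ← sum_filter, mul_sum]
  symm
  refine sum_nbij (fun m => q * m) ?_ ?_ ?_ ?_
  · intro m hm
    rw [mem_Ioc] at hm
    rw [mem_filter, mem_Ioc]
    have h2 := (Nat.div_lt_iff_lt_mul hq).1 hm.1
    have h3 := (Nat.le_div_iff_mul_le hq).1 hm.2
    rw [mul_comm] at h2 h3
    exact ⟨⟨h2, h3⟩, dvd_mul_right _ _⟩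
  · intro a _ b _ hab
    exact Nat.eq_of_mul_eq_mul_left hq hab
  · intro m hm
    rw [coe_filter] at hm
    obtain ⟨hm1, j, hj⟩ := hm
    rw [mem_Ioc] at hm1
    refine ⟨j, ?_, hj.symm⟩
    rw [mem_coe, mem_Ioc, Nat.div_lt_iff_lt_mul hq, Nat.le_div_iff_mul_le hq, mul_comm j q, ← hj]
    exact hm1
  · intro m _
    rfl

lemma abs_sum_D (q n T : ℕ) (hq : 1 ≤ q) : |∑ m ∈ Ioc n (n + T), EB.D q m| ≤ q := by
  have h1 : ∑ m ∈ Ioc n (n + T), EB.D q m = q * (((n + T) / q : ℕ) - (n / q : ℕ) : ℝ) - T := by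
    have h2 := sum_mult q n T hq fun _ => 1
    have h3 : ∀ m, EB.D q m = (if q ∣ m then (q : ℝ) else 0) * 1 - 1 := by
      intro m
      unfold EB.D
      ring
    rw [sum_congr rfl fun m _ => h3 m, sum_sub_distrib, h2]
    have h4 : n / q ≤ (n + T) / q := Nat.div_le_div_right (by omega)
    simp only [sum_const, Nat.card_Ioc, nsmul_eq_mul, mul_one]
    rw [Nat.cast_sub h4]
    simp
  rw [h1]
  have h5 : q * ((n + T) / q) ≤ n + T := Nat.mul_div_le _ _
  have h6 : n < q * (n / q + 1) := Nat.lt_mul_div_succ n hq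
  have h7 : n + T < q * ((n + T) / q + 1) := Nat.lt_mul_div_succ _ hq
  have h8 : q * (n / q) ≤ n := Nat.mul_div_le _ _
  have h5' : (q : ℝ) * ((n + T) / q : ℕ) ≤ n + T := by exact_mod_cast h5
  have h6' : (n : ℝ) ≤ q * ((n / q : ℕ) + 1) := by exact_mod_cast h6.le
  have h7' : (n : ℝ) + T ≤ q * (((n + T) / q : ℕ) + 1) := by exact_mod_cast h7.le
  have h8' : (q : ℝ) * (n / q : ℕ) ≤ n := by exact_mod_cast h8
  rw [abs_le]
  constructor <;> nlinarith

lemma sum_abs_D (q n h : ℕ) (hq : 1 ≤ q) :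
    ∑ m ∈ Ioc n (n + q * h), |EB.D q m| ≤ 2 * q * (h + 1) := by
  have h1 := LEV.sum_dvd_le q n (q * h) hq
  calc ∑ m ∈ Ioc n (n + q * h), |EB.D q m|
      ≤ ∑ m ∈ Ioc n (n + q * h), ((if q ∣ m then (q : ℝ) else 0) + 1) :=
        sum_le_sum fun m _ => LEV.abs_D_le q m
    _ = ∑ m ∈ Ioc n (n + q * h), (if q ∣ m then (q : ℝ) else 0) + (q * h : ℕ) := by
        rw [sum_add_distrib]
        simp
    _ ≤ 2 * q * (h + 1) := by
        push_cast at h1 ⊢
        have : (0 : ℝ) ≤ q := Nat.cast_nonneg _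
        linarith

lemma D_add (q m h : ℕ) : EB.D q (m + q * h) = EB.D q m := by
  unfold EB.D
  have : q ∣ m + q * h ↔ q ∣ m := (Nat.dvd_add_left (dvd_mul_right q h))
  simp only [this]

/-- moving a window -/
lemma shift_sum (F : ℕ → ℝ) (n T a : ℕ) :
    |∑ m ∈ Ioc n (n + T), F (m + a) - ∑ m ∈ Ioc n (n + T), F m| ≤
      ∑ m ∈ Ioc n (n + a), |F m| + ∑ m ∈ Ioc (n + T) (n + T + a), |F m| := by
  have h1 : ∑ m ∈ Ioc n (n + T), F (m + a) = ∑ m ∈ Ioc (n + a) (n + T + a), F m := by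
    rw [← Finset.map_add_right_Ioc, sum_map]
    rfl
  have h2 : ∑ m ∈ Ioc n (n + a), F m + ∑ m ∈ Ioc (n + a) (n + T + a), F m =
      ∑ m ∈ Ioc n (n + T + a), F m := sum_Ioc_consecutive F (by omega) (by omega)
  have h3 : ∑ m ∈ Ioc n (n + T), F m + ∑ m ∈ Ioc (n + T) (n + T + a), F m =
      ∑ m ∈ Ioc n (n + T + a), F m := sum_Ioc_consecutive F (by omega) (by omega)
  have h4 : ∑ m ∈ Ioc n (n + T), F (m + a) - ∑ m ∈ Ioc n (n + T), F m =
      ∑ m ∈ Ioc (n + T) (n + T + a), F m - ∑ m ∈ Ioc n (n + a), F m := by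
    rw [h1]
    linarith
  rw [h4]
  calc |∑ m ∈ Ioc (n + T) (n + T + a), F m - ∑ m ∈ Ioc n (n + a), F m|
      ≤ |∑ m ∈ Ioc (n + T) (n + T + a), F m| + |∑ m ∈ Ioc n (n + a), F m| := abs_sub _ _
    _ ≤ ∑ m ∈ Ioc (n + T) (n + T + a), |F m| + ∑ m ∈ Ioc n (n + a), |F m| :=
        add_le_add (abs_sum_le_sum_abs _ _) (abs_sum_le_sum_abs _ _)
    _ = _ := add_comm _ _

/-- one pair of shifts -/
lemma pair_le (lam : ℕ → ℝ) (hl : ∀ n, lam n = 1 ∨ lam n = -1) (q T n h k : ℕ) (hq : 1 ≤ q)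
    (hT : 1 ≤ T) :
    |∑ m ∈ Ioc n (n + T), EB.D q m * (lam (m + q * h) * lam (m + q * (h + k)))| ≤
      T * |tq lam q T k n| + 4 * q * (h + 1) := by
  have ha : ∀ m, |lam m| ≤ 1 := fun m => by rcases hl m with e | e <;> rw [e] <;> simp
  have hT0 : (0 : ℝ) < T := by exact_mod_cast hT
  set F : ℕ → ℝ := fun m => lam m * lam (m + q * k) * EB.D q m with hF
  have h1 : ∑ m ∈ Ioc n (n + T), EB.D q m * (lam (m + q * h) * lam (m + q * (h + k))) =
      ∑ m ∈ Ioc n (n + T), F (m + q * h) := by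
    refine sum_congr rfl fun m _ => ?_
    simp only [hF]
    rw [D_add, show m + q * h + q * k = m + q * (h + k) by ring]
    ring
  have h2 : ∑ m ∈ Ioc n (n + T), F m = T * tq lam q T k n := by
    unfold tq
    field_simp
    rfl
  have h3 := shift_sum F n T (q * h)
  have h4 : ∀ m, |F m| ≤ |EB.D q m| := by
    intro m
    simp only [hF]
    rw [abs_mul, abs_mul]
    calc |lam m| * |lam (m + q * k)| * |EB.D q m| ≤ 1 * 1 * |EB.D q m| := by
          gcongr
          · exact ha _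
          · exact ha _
      _ = _ := by ring
  have h5 : ∑ m ∈ Ioc n (n + q * h), |F m| ≤ 2 * q * (h + 1) :=
    (sum_le_sum fun m _ => h4 m).trans (sum_abs_D q n h hq)
  have h6 : ∑ m ∈ Ioc (n + T) (n + T + q * h), |F m| ≤ 2 * q * (h + 1) :=
    (sum_le_sum fun m _ => h4 m).trans (sum_abs_D q (n + T) h hq)
  rw [h1]
  rw [h2] at h3
  have h7 : |∑ m ∈ Ioc n (n + T), F (m + q * h)| ≤
      |∑ m ∈ Ioc n (n + T), F (m + q * h) - T * tq lam q T k n| + |T * tq lam q T k n| := by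
    have := abs_add_le (∑ m ∈ Ioc n (n + T), F (m + q * h) - T * tq lam q T k n)
      (T * tq lam q T k n)
    rwa [sub_add_cancel] at this
  rw [abs_mul, abs_of_pos hT0] at h7
  linarith

lemma pair_le' (lam : ℕ → ℝ) (hl : ∀ n, lam n = 1 ∨ lam n = -1) (H q T n h h' : ℕ) (hq : 1 ≤ q)
    (hT : 1 ≤ T) (hh : h ∈ range (H + 1)) (hh' : h' ∈ range (H + 1)) :
    |∑ m ∈ Ioc n (n + T), EB.D q m * (lam (m + q * h) * lam (m + q * h'))| ≤
      ∑ k ∈ Icc 1 H, (if Nat.dist h h' = k then T * |tq lam q T k n| else 0) +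
        4 * q * (H + 1) := by
  rw [mem_range] at hh hh'
  have hq0 : (0 : ℝ) ≤ q := Nat.cast_nonneg _
  have key : ∀ a b : ℕ, a < b → b ≤ H →
      |∑ m ∈ Ioc n (n + T), EB.D q m * (lam (m + q * a) * lam (m + q * b))| ≤
      ∑ k ∈ Icc 1 H, (if Nat.dist a b = k then T * |tq lam q T k n| else 0) +
        4 * q * (H + 1) := by
    intro a b hab hb
    have h1 := pair_le lam hl q T n a (b - a) hq hT
    rw [Nat.add_sub_cancel' hab.le] at h1
    have h2 : Nat.dist a b = b - a := Nat.dist_eq_sub_of_le hab.le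
    rw [h2, sum_ite_eq, if_pos (by rw [mem_Icc]; omega)]
    have h3 : (a : ℝ) ≤ H := by exact_mod_cast (by omega : a ≤ H)
    have h4 : 4 * (q : ℝ) * (a + 1) ≤ 4 * q * (H + 1) := by gcongr
    linarith
  rcases lt_trichotomy h h' with hlt | heq | hgt
  · exact key h h' hlt (by omega)
  · subst heq
    have h1 : ∑ m ∈ Ioc n (n + T), EB.D q m * (lam (m + q * h) * lam (m + q * h)) =
        ∑ m ∈ Ioc n (n + T), EB.D q m := by
      refine sum_congr rfl fun m _ => ?_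
      rcases hl (m + q * h) with e | e <;> rw [e] <;> ring
    rw [h1]
    have h2 : (0 : ℝ) ≤ ∑ k ∈ Icc 1 H, (if Nat.dist h h = k then T * |tq lam q T k n| else 0) :=
      sum_nonneg fun k _ => by split_ifs <;> positivity
    have h3 := abs_sum_D q n T hq
    have h4 : (q : ℝ) ≤ 4 * q * (H + 1) := by
      have : (0 : ℝ) ≤ q * H := by positivity
      nlinarith
    linarith
  · have h1 := key h' h hgt (by omega)
    rw [Nat.dist_comm h h']
    have h2 : ∑ m ∈ Ioc n (n + T), EB.D q m * (lam (m + q * h) * lam (m + q * h')) =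
        ∑ m ∈ Ioc n (n + T), EB.D q m * (lam (m + q * h') * lam (m + q * h)) :=
      sum_congr rfl fun m _ => by ring
    rw [h2]
    exact h1

lemma dist_card (h k : ℕ) (s : Finset ℕ) :
    (s.filter fun h' => Nat.dist h h' = k).card ≤ 2 := by
  have : s.filter (fun h' => Nat.dist h h' = k) ⊆ {h + k, h - k} := by
    intro x hx
    rw [mem_filter] at hx
    rw [mem_insert, mem_singleton]
    have := hx.2
    unfold Nat.dist at this
    omega
  exact (card_le_card this).trans (card_le_two)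

/-- the pairs together -/
lemma pairs (H : ℕ) (τ : ℕ → ℝ) (hτ : ∀ k, 0 ≤ τ k) :
    ∑ h ∈ range (H + 1), ∑ h' ∈ range (H + 1), ∑ k ∈ Icc 1 H,
      (if Nat.dist h h' = k then τ k else 0) ≤ 2 * (H + 1) * ∑ k ∈ Icc 1 H, τ k := by
  have h1 : ∀ h ∈ range (H + 1), ∑ h' ∈ range (H + 1), ∑ k ∈ Icc 1 H,
      (if Nat.dist h h' = k then τ k else 0) ≤ 2 * ∑ k ∈ Icc 1 H, τ k := by
    intro h _
    rw [sum_comm, mul_sum]
    refine sum_le_sum fun k _ => ?_
    rw [← sum_filter, sum_const, nsmul_eq_mul]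
    have h2 : (((range (H + 1)).filter fun h' => Nat.dist h h' = k).card : ℝ) ≤ 2 := by
      exact_mod_cast dist_card h k _
    exact mul_le_mul_of_nonneg_right h2 (hτ k)
  calc _ ≤ ∑ h ∈ range (H + 1), 2 * ∑ k ∈ Icc 1 H, τ k := sum_le_sum h1
    _ = _ := by
      rw [sum_const, card_range, nsmul_eq_mul]
      push_cast
      ring

lemma normsq_expand (lam : ℕ → ℝ) (H q m : ℕ) (c : ℕ → ℂ) :
    ‖∑ h ∈ range (H + 1), c h * (lam (m + q * h) : ℂ)‖ ^ 2 =
      ∑ h ∈ range (H + 1), ∑ h' ∈ range (H + 1),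
        (c h * (starRingEnd ℂ) (c h')).re * (lam (m + q * h) * lam (m + q * h')) := by
  have h1 : ((‖∑ h ∈ range (H + 1), c h * (lam (m + q * h) : ℂ)‖ ^ 2 : ℝ) : ℂ) =
      ∑ h ∈ range (H + 1), ∑ h' ∈ range (H + 1),
        (c h * (starRingEnd ℂ) (c h')) * ((lam (m + q * h) * lam (m + q * h') : ℝ) : ℂ) := by
    rw [Complex.ofReal_pow, ← Complex.mul_conj', map_sum, sum_mul_sum]
    refine sum_congr rfl fun h _ => sum_congr rfl fun h' _ => ?_
    rw [map_mul, Complex.conj_ofReal]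
    push_cast
    ring
  have h2 := congrArg Complex.re h1
  rw [Complex.ofReal_re] at h2
  rw [h2, Complex.re_sum]
  refine sum_congr rfl fun h _ => ?_
  rw [Complex.re_sum]
  refine sum_congr rfl fun h' _ => ?_
  rw [Complex.re_mul_ofReal]

lemma normsq_le (lam : ℕ → ℝ) (ha : ∀ m, |lam m| ≤ 1) (H q m : ℕ) (c : ℕ → ℂ)
    (hc : ∀ h, ‖c h‖ ≤ 1) :
    ‖∑ h ∈ range (H + 1), c h * (lam (m + q * h) : ℂ)‖ ^ 2 ≤ ((H : ℝ) + 1) ^ 2 := by
  have h1 : ‖∑ h ∈ range (H + 1), c h * (lam (m + q * h) : ℂ)‖ ≤ (H : ℝ) + 1 := by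
    calc _ ≤ ∑ h ∈ range (H + 1), ‖c h * (lam (m + q * h) : ℂ)‖ := norm_sum_le _ _
      _ ≤ ∑ _h ∈ range (H + 1), (1 : ℝ) := by
          refine sum_le_sum fun h _ => ?_
          rw [norm_mul, Complex.norm_real, Real.norm_eq_abs]
          exact mul_le_one₀ (hc h) (abs_nonneg _) (ha _)
      _ = (H : ℝ) + 1 := by simp
  exact pow_le_pow_left₀ (norm_nonneg _) h1 2

theorem pf_DPS : T_DPS := by
  intro lam H T q n c hlam hqp hqT hc
  have hl := hlam.pm
  have ha : ∀ m, |lam m| ≤ 1 := fun m => by rcases hl m with e | e <;> rw [e] <;> simp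
  have hq : 1 ≤ q := hqp.one_lt.le
  have hq0 : (0 : ℝ) < q := by exact_mod_cast hq
  have hT : 1 ≤ T := hq.trans hqT
  have hT0 : (0 : ℝ) < T := by exact_mod_cast hT
  have hH0 : (0 : ℝ) ≤ H := Nat.cast_nonneg _
  set G : ℕ → ℝ := fun m => ‖∑ h ∈ range (H + 1), c h * (lam (m + q * h) : ℂ)‖ ^ 2 with hG
  set G' : ℕ → ℝ := fun m => ‖∑ h ∈ range (H + 1), c h * (lam (m + 1 * h) : ℂ)‖ ^ 2 with hG'
  have hG'0 : ∀ m, 0 ≤ G' m := fun m => by positivity
  have hG'1 : ∀ m, G' m ≤ ((H : ℝ) + 1) ^ 2 := fun m => normsq_le lam ha H 1 m c hc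
  -- the multiples of q
  have e1 : ∀ m, 1 ≤ m → G (q * m) = G' m := by
    intro m hm
    simp only [hG, hG']
    have h1 : ∑ h ∈ range (H + 1), c h * (lam (q * m + q * h) : ℂ) =
        -∑ h ∈ range (H + 1), c h * (lam (m + 1 * h) : ℂ) := by
      rw [← sum_neg_distrib]
      refine sum_congr rfl fun h _ => ?_
      rw [← mul_add, hlam.pr q (m + h) hqp (by omega), one_mul]
      push_cast
      ring
    rw [h1, norm_neg]
  have e2 : ∑ m ∈ Ioc n (n + T), (if q ∣ m then (q : ℝ) else 0) * G m =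
      q * ∑ m ∈ Ioc (n / q) ((n + T) / q), G' m := by
    rw [sum_mult q n T hq]
    congr 1
    refine sum_congr rfl fun m hm => e1 m ?_
    rw [mem_Ioc] at hm
    exact lt_of_le_of_lt (Nat.zero_le _) hm.1
  have e3 : ∑ m ∈ Ioc (n / q) ((n + T) / q), G' m ≤
      ∑ m ∈ Ioc (n / q) (n / q + T / q), G' m + ((H : ℝ) + 1) ^ 2 := by
    have h1 : (n + T) / q ≤ n / q + T / q + 1 := by
      have h2 : n + T < q * (n / q + T / q + 2) := by
        have h3 : n < q * (n / q + 1) := Nat.lt_mul_div_succ n hq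
        have h4 : T < q * (T / q + 1) := Nat.lt_mul_div_succ T hq
        calc n + T < q * (n / q + 1) + q * (T / q + 1) := by omega
          _ = q * (n / q + T / q + 2) := by ring
      have h5 : (n + T) / q < n / q + T / q + 2 := by
        rw [Nat.div_lt_iff_lt_mul hq, mul_comm]
        exact h2
      omega
    calc ∑ m ∈ Ioc (n / q) ((n + T) / q), G' m
        ≤ ∑ m ∈ Ioc (n / q) (n / q + T / q + 1), G' m := by
          refine sum_le_sum_of_subset_of_nonneg (Ioc_subset_Ioc_right h1) fun m _ _ => hG'0 m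
      _ = ∑ m ∈ Ioc (n / q) (n / q + T / q), G' m + G' (n / q + T / q + 1) :=
          sum_Ioc_succ_top (Nat.le_add_right _ _) _
      _ ≤ _ := by
          have := hG'1 (n / q + T / q + 1)
          linarith
  have hTq : 1 ≤ T / q := (Nat.one_le_div_iff hq).2 hqT
  have hTq0 : (0 : ℝ) < ((T / q : ℕ) : ℝ) := by exact_mod_cast hTq
  have hqTq : (q : ℝ) * ((T / q : ℕ) : ℝ) ≤ T := by exact_mod_cast Nat.mul_div_le T q
  have e4 : ∑ m ∈ Ioc (n / q) (n / q + T / q), G' m =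
      ((T / q : ℕ) : ℝ) * fl lam H (T / q) 1 (n / q) c := by
    unfold fl
    rw [mul_div_cancel₀ _ hTq0.ne']
  have hfl0 : 0 ≤ fl lam H (T / q) 1 (n / q) c := by
    unfold fl
    positivity
  -- the error
  have e5 : |∑ m ∈ Ioc n (n + T), EB.D q m * G m| ≤
      2 * (H + 1) * ∑ k ∈ Icc 1 H, T * |tq lam q T k n| + (H + 1) ^ 2 * (4 * q * (H + 1)) := by
    have h1 : ∑ m ∈ Ioc n (n + T), EB.D q m * G m =
        ∑ h ∈ range (H + 1), ∑ h' ∈ range (H + 1), (c h * (starRingEnd ℂ) (c h')).re *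
          ∑ m ∈ Ioc n (n + T), EB.D q m * (lam (m + q * h) * lam (m + q * h')) := by
      have h2 : ∀ m ∈ Ioc n (n + T), EB.D q m * G m = ∑ h ∈ range (H + 1),
          ∑ h' ∈ range (H + 1), (c h * (starRingEnd ℂ) (c h')).re *
            (EB.D q m * (lam (m + q * h) * lam (m + q * h'))) := by
        intro m _
        simp only [hG]
        rw [normsq_expand, mul_sum]
        refine sum_congr rfl fun h _ => ?_
        rw [mul_sum]
        refine sum_congr rfl fun h' _ => ?_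
        ring
      rw [sum_congr rfl h2, sum_comm]
      refine sum_congr rfl fun h _ => ?_
      rw [sum_comm]
      refine sum_congr rfl fun h' _ => ?_
      rw [mul_sum]
    rw [h1]
    calc |∑ h ∈ range (H + 1), ∑ h' ∈ range (H + 1), (c h * (starRingEnd ℂ) (c h')).re *
          ∑ m ∈ Ioc n (n + T), EB.D q m * (lam (m + q * h) * lam (m + q * h'))|
        ≤ ∑ h ∈ range (H + 1), ∑ h' ∈ range (H + 1), (∑ k ∈ Icc 1 H,
          (if Nat.dist h h' = k then T * |tq lam q T k n| else 0) + 4 * q * (H + 1)) := by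
          refine (abs_sum_le_sum_abs _ _).trans (sum_le_sum fun h hh => ?_)
          refine (abs_sum_le_sum_abs _ _).trans (sum_le_sum fun h' hh' => ?_)
          have h3 := pair_le' lam hl H q T n h h' hq hT hh hh'
          have h4 : |(c h * (starRingEnd ℂ) (c h')).re| ≤ 1 := by
            refine (Complex.abs_re_le_norm _).trans ?_
            rw [norm_mul, RCLike.norm_conj]
            exact mul_le_one₀ (hc h) (norm_nonneg _) (hc h')
          rw [abs_mul]
          calc _ ≤ 1 * |∑ m ∈ Ioc n (n + T), EB.D q m * (lam (m + q * h) * lam (m + q * h'))| :=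
                mul_le_mul_of_nonneg_right h4 (abs_nonneg _)
            _ ≤ _ := by rw [one_mul]; exact h3
      _ = ∑ h ∈ range (H + 1), ∑ h' ∈ range (H + 1), ∑ k ∈ Icc 1 H,
          (if Nat.dist h h' = k then T * |tq lam q T k n| else 0) +
            (H + 1) ^ 2 * (4 * q * (H + 1)) := by
          simp only [sum_add_distrib, sum_const, card_range, nsmul_eq_mul]
          push_cast
          ring
      _ ≤ _ := by
          have := pairs H (fun k => (T : ℝ) * |tq lam q T k n|) fun k => by positivity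
          linarith
  have e6 : ∑ m ∈ Ioc n (n + T), G m =
      ∑ m ∈ Ioc n (n + T), (if q ∣ m then (q : ℝ) else 0) * G m -
        ∑ m ∈ Ioc n (n + T), EB.D q m * G m := by
    rw [← sum_sub_distrib]
    refine sum_congr rfl fun m _ => ?_
    unfold EB.D
    ring
  have e7 : fl lam H T q n c = (∑ m ∈ Ioc n (n + T), G m) / T := rfl
  rw [e7, div_le_iff₀ hT0, e6, e2]
  have e8 : -∑ m ∈ Ioc n (n + T), EB.D q m * G m ≤
      2 * (H + 1) * ∑ k ∈ Icc 1 H, T * |tq lam q T k n| + (H + 1) ^ 2 * (4 * q * (H + 1)) :=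
    (neg_le_abs _).trans e5
  have e9 : (q : ℝ) * ∑ m ∈ Ioc (n / q) ((n + T) / q), G' m ≤
      T * fl lam H (T / q) 1 (n / q) c + q * ((H : ℝ) + 1) ^ 2 := by
    calc (q : ℝ) * ∑ m ∈ Ioc (n / q) ((n + T) / q), G' m
        ≤ q * (((T / q : ℕ) : ℝ) * fl lam H (T / q) 1 (n / q) c + ((H : ℝ) + 1) ^ 2) := by
          rw [← e4]
          exact mul_le_mul_of_nonneg_left e3 hq0.le
      _ = q * ((T / q : ℕ) : ℝ) * fl lam H (T / q) 1 (n / q) c + q * ((H : ℝ) + 1) ^ 2 := by ring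
      _ ≤ _ := by
          have := mul_le_mul_of_nonneg_right hqTq hfl0
          linarith
  have e10 : (fl lam H (T / q) 1 (n / q) c +
      2 * ((H : ℝ) + 1) * ∑ k ∈ Icc 1 H, |tq lam q T k n| + 20 * ((H : ℝ) + 1) ^ 3 * q / T) * T =
      T * fl lam H (T / q) 1 (n / q) c + 2 * (H + 1) * ∑ k ∈ Icc 1 H, T * |tq lam q T k n| +
        20 * ((H : ℝ) + 1) ^ 3 * q := by
    rw [← mul_sum]
    field_simp
  rw [e10]
  have e11 : (q : ℝ) * ((H : ℝ) + 1) ^ 2 + (H + 1) ^ 2 * (4 * q * (H + 1)) ≤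
      20 * ((H : ℝ) + 1) ^ 3 * q := by
    have h1 : ((H : ℝ) + 1) ^ 2 ≤ ((H : ℝ) + 1) ^ 3 :=
      pow_le_pow_right₀ (by linarith) (by norm_num)
    have h2 : (q : ℝ) * ((H : ℝ) + 1) ^ 2 ≤ q * ((H : ℝ) + 1) ^ 3 :=
      mul_le_mul_of_nonneg_left h1 hq0.le
    have h3 : (0 : ℝ) ≤ q * ((H : ℝ) + 1) ^ 3 := by positivity
    nlinarith
  linarith

end Pool.Agent.H12.QP
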